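import Pool.Agent.H.MP_07c8c2_lc.A

set_option autoImplicit false

open Pool.Agent.H.MP_07c8c2_lc

namespace Pool.Agent.Results.MP_07c8c2_lc.Yes

universe u v

theorem result (P : Type u) [Preorder P] (X : Type v) [TopologicalSpace X]
    (h : ∀ y : X, Wins y) : ∀ y : X, ∃ R : List (Set (X × P)) → X → P → Prop, FWins y R :=
  fun y => pres (h y)

end Pool.Agent.Results.MP_07c8c2_lc.Yes
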